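import Mathlib.Algebra.Order.Chebyshev
import Mathlib.Algebra.Order.Ring.Star
import Mathlib.Data.Int.Star
import Mathlib.Data.Int.Interval
import Mathlib.Data.Nat.Choose.Bounds
import Mathlib.Data.Fintype.BigOperators
import Mathlib.NumberTheory.Divisors
import Mathlib.Data.Real.Basic
import Mathlib.Data.Nat.Prime.Int
import Mathlib.Algebra.BigOperators.Associated
import Mathlib.Tactic.LinearCombination
import Mathlib.Tactic.Positivity
import Mathlib.Tactic.FieldSimp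
import Mathlib.Tactic.Linarith
import Mathlib.Data.Nat.Cast.Order.Field
import Mathlib.Algebra.BigOperators.Field
import Pool.Agent.MP_a43263_nt.R2.Maj
import Pool.Agent.MP_a43263_nt.R2.Mer
import Mathlib.Analysis.SpecialFunctions.Pow.Asymptotics
import Mathlib.Analysis.SpecialFunctions.Pow.NthRootLemmas
import Pool.Agent.MP_db1c88_nt.z94.Basic2

-- ======== part 0: formerly Pool.Agent.MP_47ed89_co.h76.Energy
section MrgPart0

/-!
Additive energy of reciprocals of primes, on average over the modulus.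
-/

set_option autoImplicit false

namespace Pool.Agent.MP_47ed89_co.H76

open Finset

/-- the `2 s`-tuples of members of `Y` -/
def Tup (s : ℕ) (Y : Finset ℕ) : Finset (Fin s ⊕ Fin s → ℕ) := Fintype.piFinset fun _ => Y

/-- the signs -/
def sg {s : ℕ} : Fin s ⊕ Fin s → ℤ := Sum.elim (fun _ => 1) fun _ => -1

/-- the numerator of the signed sum of the reciprocals -/
def num {s : ℕ} (t : Fin s ⊕ Fin s → ℕ) : ℤ := ∑ j, sg j * ∏ i ∈ univ.erase j, (t i : ℤ)

lemma mem_Tup {s : ℕ} {Y : Finset ℕ} {t : Fin s ⊕ Fin s → ℕ} : t ∈ Tup s Y ↔ ∀ i, t i ∈ Y :=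
  Fintype.mem_piFinset

lemma card_Tup (s : ℕ) (Y : Finset ℕ) : (Tup s Y).card = Y.card ^ (2 * s) := by
  simp [Tup, two_mul]

lemma abs_sg {s : ℕ} (j : Fin s ⊕ Fin s) : |sg j| = 1 := by rcases j with j | j <;> simp [sg]

lemma cs {α β : Type} [DecidableEq β] (A : Finset α) (Ω : Finset β) (φ : α → β)
    (h : ∀ a ∈ A, φ a ∈ Ω) :
    A.card ^ 2 ≤ Ω.card * ((A ×ˢ A).filter fun z => φ z.1 = φ z.2).card := by
  rw [card_eq_sum_card_fiberwise (f := φ) (t := Ω) h,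
    card_eq_sum_card_fiberwise (s := (A ×ˢ A).filter fun z => φ z.1 = φ z.2)
      (f := fun z => φ z.1) (t := Ω) fun z hz => h _ (mem_product.1 (mem_filter.1 hz).1).1]
  refine sq_sum_le_card_mul_sum_sq.trans (le_of_eq ?_)
  congr 1
  refine sum_congr rfl fun b _ => ?_
  rw [sq, ← card_product]
  congr 1
  ext z
  simp only [mem_product, mem_filter]
  constructor
  · rintro ⟨⟨h1, h2⟩, h3, h4⟩
    exact ⟨⟨⟨h1, h3⟩, h2.trans h4.symm⟩, h2⟩
  · rintro ⟨⟨⟨h1, h2⟩, h3⟩, h4⟩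
    exact ⟨⟨h1, h4⟩, h2, h3 ▸ h4⟩

lemma diag {s : ℕ} (Y : Finset ℕ) (hY : ∀ p ∈ Y, p.Prime) :
    ((Tup s Y).filter fun t => num t = 0).card ≤ s ^ (2 * s) * Y.card ^ s := by
  rcases lt_or_ge Y.card s with h | h
  · refine (card_filter_le _ _).trans ?_
    rw [card_Tup, two_mul, pow_add]
    refine Nat.mul_le_mul_right _ ((Nat.pow_le_pow_left h.le _).trans ?_)
    exact Nat.pow_le_pow_right (by omega) (by omega)
  have key : ((Tup s Y).filter fun t => num t = 0) ⊆ (powersetCard s Y).biUnion (Tup s) := by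
    intro t ht
    obtain ⟨h1, h2⟩ := mem_filter.1 ht
    rw [mem_Tup] at h1
    have h3 : ∀ j, ∃ i, i ≠ j ∧ t i = t j := by
      intro j
      have hp : Prime (t j : ℤ) := Nat.prime_iff_prime_int.1 (hY _ (h1 j))
      rw [num, ← add_sum_erase _ _ (mem_univ j)] at h2
      have h4 : (t j : ℤ) ∣ ∑ l ∈ univ.erase j, sg l * ∏ i ∈ univ.erase l, (t i : ℤ) :=
        dvd_sum fun l hl => Dvd.dvd.mul_left (dvd_prod_of_mem (fun i => (t i : ℤ))
          (mem_erase.2 ⟨(mem_erase.1 hl).1.symm, mem_univ _⟩)) _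
      rw [← neg_eq_iff_add_eq_zero.2 h2, dvd_neg, ← dvd_abs, abs_mul, abs_sg, one_mul,
        dvd_abs] at h4
      obtain ⟨i, hi, h5⟩ := hp.exists_mem_finset_dvd h4
      exact ⟨i, (mem_erase.1 hi).1, ((Nat.prime_dvd_prime_iff_eq (hY _ (h1 j)) (hY _ (h1 i))).1
        (by exact_mod_cast h5)).symm⟩
    have h4 : 2 * (univ.image t).card ≤ (univ : Finset (Fin s ⊕ Fin s)).card := by
      refine mul_card_image_le_card _ _ fun b hb => ?_
      obtain ⟨j, -, rfl⟩ := mem_image.1 hb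
      obtain ⟨i, h5, h6⟩ := h3 j
      exact one_lt_card.2 ⟨i, by simpa using h6, j, by simp, h5⟩
    obtain ⟨I, h5, h6, h7⟩ := exists_subsuperset_card_eq (s := univ.image t) (t := Y) (n := s)
      (image_subset_iff.2 fun i _ => h1 i) (by simp at h4; omega) h
    exact mem_biUnion.2 ⟨I, mem_powersetCard.2 ⟨h6, h7⟩,
      mem_Tup.2 fun i => h5 (mem_image_of_mem _ (mem_univ _))⟩
  refine (card_le_card key).trans ((card_biUnion_le_card_mul _ _ (s ^ (2 * s)) fun I hI => by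
    rw [card_Tup, (mem_powersetCard.1 hI).2]).trans ?_)
  rw [card_powersetCard, mul_comm]
  exact Nat.mul_le_mul_left _ (Nat.choose_le_pow _ _)

lemma cls {S : Finset ℕ} {A L d : ℕ} (hd : 0 < d) (hL : d ≤ L) (h : ∀ p ∈ S, A ≤ p ∧ p ≤ A + L)
    (h2 : ∀ p ∈ S, ∀ p' ∈ S, p ≡ p' [MOD d]) : (S.card : ℝ) ≤ 2 * L / d := by
  have h1 : S.card ≤ (range (L / d + 1)).card := by
    refine card_le_card_of_injOn (fun p => (p - A) / d) (fun p hp => ?_) fun p hp p' hp' e => ?_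
    · have := Nat.div_le_div_right (c := d) (show p - A ≤ L by have := h p hp; omega)
      simpa using Nat.lt_succ_of_le this
    · have a1 := h p hp
      have a2 := h p' hp'
      have a3 : p - A ≡ p' - A [MOD d] := by
        refine Nat.ModEq.add_right_cancel' A ?_
        rw [Nat.sub_add_cancel a1.1, Nat.sub_add_cancel a2.1]
        exact h2 p hp p' hp'
      have a4 := Nat.div_add_mod (p - A) d
      have a5 := Nat.div_add_mod (p' - A) d
      rw [Nat.ModEq] at a3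
      simp only at e
      rw [e, a3] at a4
      omega
  rw [card_range] at h1
  have a1 : ((L / d : ℕ) : ℝ) ≤ L / d := Nat.cast_div_le
  have a2 : (1 : ℝ) ≤ L / d := by
    rw [le_div_iff₀ (by exact_mod_cast hd), one_mul]
    exact_mod_cast hL
  have a3 : (S.card : ℝ) ≤ (L / d : ℕ) + 1 := by exact_mod_cast h1
  rw [mul_div_assoc]
  linarith

lemma cong {d c c' p p' : ℕ} (h : (d : ℤ) ∣ c * p * c' - 1) (h' : (d : ℤ) ∣ c * p' * c' - 1) :
    p ≡ p' [MOD d] := by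
  rw [Nat.modEq_iff_dvd]
  have : (p' : ℤ) - p = p * (c * p' * c' - 1) - p' * (c * p * c' - 1) := by ring
  rw [this]
  exact (h'.mul_left _).sub (h.mul_left _)

/-- admissible shifts -/
structure Adm (a : ℤ × ℤ × ℤ) : Prop where
  h1 : a.1 ∣ 6
  h2 : a.2.1 ∣ 6
  h3 : a.2.2 ∣ 6
  h4 : (a.1 - a.2.1) * (a.1 - a.2.2) * (a.2.1 - a.2.2) ∣ 6

/-- the product of a triple -/
def pr (T : ℕ × ℕ × ℕ) : ℕ := T.1 * T.2.1 * T.2.2

/-- the three congruences -/
def Rt (a : ℤ × ℤ × ℤ) (T : ℕ × ℕ × ℕ) (u : ℤ) : Prop :=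
  (T.1 : ℤ) ∣ u + a.1 ∧ (T.2.1 : ℤ) ∣ u + a.2.1 ∧ (T.2.2 : ℤ) ∣ u + a.2.2

lemma vdm {a : ℤ × ℤ × ℤ} (ha : Adm a) {T : ℕ × ℕ × ℕ} {u z : ℤ} (h : Rt a T u)
    (h1 : (T.1 : ℤ) ∣ z) (h2 : (T.2.1 : ℤ) ∣ z) (h3 : (T.2.2 : ℤ) ∣ z) : (pr T : ℤ) ∣ 6 * z := by
  refine Dvd.dvd.trans ?_ (mul_dvd_mul_right ha.h4 z)
  obtain ⟨⟨A, hA⟩, ⟨B, hB⟩, ⟨C, hC⟩⟩ := h
  obtain ⟨x, hx⟩ := h1
  obtain ⟨y, hy⟩ := h2
  obtain ⟨w, hw⟩ := h3
  have e1 : a.1 - a.2.1 = T.1 * A - T.2.1 * B := by linear_combination hA - hB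
  have e2 : a.1 - a.2.2 = T.1 * A - T.2.2 * C := by linear_combination hA - hC
  have e3 : a.2.1 - a.2.2 = T.2.1 * B - T.2.2 * C := by linear_combination hB - hC
  rw [e1, e2, e3, pr]
  push_cast
  generalize (T.1 : ℤ) = p at *
  generalize (T.2.1 : ℤ) = q at *
  generalize (T.2.2 : ℤ) = r at *
  refine ⟨A * B * (p * A - q * B) * w - A * C * (p * A - r * C) * y +
    B * C * (q * B - r * C) * x, ?_⟩
  linear_combination (p * A) * (q * B) * (p * A - q * B) * hw -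
    (p * A) * (r * C) * (p * A - r * C) * hy + (q * B) * (r * C) * (q * B - r * C) * hx

lemma collide {s : ℕ} {t : Fin s ⊕ Fin s → ℕ} {w : Fin s ⊕ Fin s → ℤ} {g r c : ℤ} (hc : c ∣ 6)
    (h : ∀ j, r ∣ g * t j * w j + c) (h0 : ∑ j, sg j * w j = 0) : r ∣ 6 * num t := by
  refine Dvd.dvd.trans ?_ (mul_dvd_mul_right hc _)
  have : c * num t = ∑ j, sg j * (∏ i ∈ univ.erase j, (t i : ℤ)) * (g * t j * w j + c) -
      g * (∏ i, (t i : ℤ)) * ∑ j, sg j * w j := by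
    rw [num, mul_sum, mul_sum, ← sum_sub_distrib]
    refine sum_congr rfl fun j _ => ?_
    rw [← mul_prod_erase univ (fun i => (t i : ℤ)) (mem_univ j)]
    ring
  rw [this, h0, mul_zero, sub_zero]
  exact dvd_sum fun j _ => (h j).mul_left _

/-- the energy inequality for one modulus -/
lemma energy {s W : ℕ} {a : ℤ × ℤ × ℤ} (ha : Adm a) {T : ℕ × ℕ × ℕ} {g : ℤ} (Y : Finset ℕ)
    (hs : 0 < s) (h : ∀ p ∈ Y, ∃ w : ℤ, |w| ≤ W ∧ Rt a T (g * p * w)) :
    Y.card ^ (2 * s) ≤ (2 * s * W + 1) *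
      ((Tup s Y).filter fun t => (pr T : ℤ) ∣ 36 * num t).card := by
  choose! w hw using h
  have h1 := cs (Fintype.piFinset fun _ : Fin s => Y) (Icc (-(s * W : ℤ)) (s * W))
    (fun f => ∑ j, w (f j)) fun f hf => by
      rw [mem_Icc, ← abs_le]
      refine (abs_sum_le_sum_abs _ _).trans ((sum_le_card_nsmul _ _ (W : ℤ) fun j _ =>
        (hw _ (Fintype.mem_piFinset.1 hf j)).1).trans (by simp))
  rw [Fintype.card_piFinset_const, ← pow_mul, mul_comm s 2, Int.card_Icc] at h1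
  refine h1.trans (Nat.mul_le_mul (by
    rw [Int.toNat_le]
    push_cast
    linarith) ?_)
  refine card_le_card_of_injOn (fun z => Sum.elim z.1 z.2) (fun z hz => ?_) fun z _ z' _ e => ?_
  · obtain ⟨h2, h3⟩ := mem_filter.1 (mem_coe.1 hz)
    obtain ⟨h4, h5⟩ := mem_product.1 h2
    rw [Fintype.mem_piFinset] at h4 h5
    have h6 : ∀ j, Sum.elim z.1 z.2 j ∈ Y := by
      rintro (j | j)
      exacts [h4 j, h5 j]
    have h7 : ∑ j, sg j * w (Sum.elim z.1 z.2 j) = 0 := by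
      simp [sg, h3]
    refine mem_coe.2 (mem_filter.2 ⟨mem_Tup.2 h6, ?_⟩)
    rw [show (36 : ℤ) = 6 * 6 by norm_num, mul_assoc]
    exact vdm ha (hw _ (h4 ⟨0, hs⟩)).2 (collide ha.h1 (fun j => (hw _ (h6 j)).2.1) h7)
      (collide ha.h2 (fun j => (hw _ (h6 j)).2.2.1) h7)
      (collide ha.h3 (fun j => (hw _ (h6 j)).2.2.2) h7)
  · exact Prod.ext (funext fun j => congrFun e (.inl j)) (funext fun j => congrFun e (.inr j))

end Pool.Agent.MP_47ed89_co.H76

end MrgPart0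

-- ======== part 1: formerly Pool.Agent.MP_47ed89_co.h76.Core
section MrgPart1

/-!
The count for one small modulus and one dyadic block of primes.
-/

set_option autoImplicit false

namespace Pool.Agent.MP_47ed89_co.H76

open Finset

/-- the cofactors -/
def Ix (Q P d : ℕ) : Finset ((ℕ × ℕ × ℕ) × ℕ) :=
  ((Icc 1 Q ×ˢ Icc 1 Q ×ˢ Icc 1 Q) ×ˢ Icc d Q).filter fun z =>
    z.2 * pr z.1 * P ≤ Q ∧ d ≤ 5 * pr z.1

/-- the primes of the block in the residue class -/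
def Yb (P d : ℕ) (z : (ℕ × ℕ × ℕ) × ℕ) : Finset ℕ :=
  (Ico P (2 * P)).filter fun p => p.Prime ∧ (d : ℤ) ∣ z.2 * p * pr z.1 - 1

open Classical in
/-- the primes that give a solution -/
noncomputable def Yg (a : ℤ × ℤ × ℤ) (P d : ℕ) (z : (ℕ × ℕ × ℕ) × ℕ) : Finset ℕ :=
  (Yb P d z).filter fun p => ∃ w : ℤ, |w| * d ≤ 5 * pr z.1 ∧ Rt a z.1 (z.2 * d * p * w)

/-- tuples in one residue class -/
def Tc (s P d : ℕ) : Finset (Fin s ⊕ Fin s → ℕ) :=
  (range d).biUnion fun b => Tup s ((Ico P (2 * P)).filter fun p => p % d = b)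

/-- the triples of divisors -/
def D3 (m : ℕ) : Finset (ℕ × ℕ × ℕ) := m.divisors ×ˢ m.divisors ×ˢ m.divisors

lemma card_D3 (m : ℕ) : ((D3 m).card : ℝ) = (m.divisors.card : ℝ) ^ 3 := by
  simp only [D3, card_product]
  push_cast
  ring

lemma mem_D3 {m : ℕ} {T : ℕ × ℕ × ℕ} (hm : m ≠ 0) (h : pr T ∣ m) : T ∈ D3 m := by
  simp only [D3, mem_product, Nat.mem_divisors]
  exact ⟨⟨(Dvd.intro _ (mul_assoc _ _ _).symm).trans h, hm⟩,
    ⟨((Dvd.intro_left _ rfl).mul_right _).trans h, hm⟩, (Dvd.intro_left _ rfl).trans h, hm⟩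

variable {s Q P d M : ℕ} {D : ℝ} {a : ℤ × ℤ × ℤ} {z : (ℕ × ℕ × ℕ) × ℕ}

lemma mem_Ix (h : z ∈ Ix Q P d) :
    0 < pr z.1 ∧ d ≤ z.2 ∧ z.2 * pr z.1 * P ≤ Q ∧ d ≤ 5 * pr z.1 := by
  simp only [Ix, mem_filter, mem_product, mem_Icc] at h
  obtain ⟨⟨⟨h1, h2, h3⟩, h4⟩, h5⟩ := h
  exact ⟨Nat.mul_pos (Nat.mul_pos h1.1 h2.1) h3.1, h4.1, h5⟩

lemma card_blk {S : Finset ℕ} (hd : 0 < d) (hP : d ≤ P) (h : S ⊆ Ico P (2 * P))
    (h2 : ∀ p ∈ S, ∀ p' ∈ S, p ≡ p' [MOD d]) : (S.card : ℝ) ≤ 2 * P / d :=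
  cls (A := P) hd hP (fun p hp => by have := mem_Ico.1 (h hp); omega) h2

lemma card_Yb (hd : 0 < d) (hP : d ≤ P) : ((Yb P d z).card : ℝ) ≤ 2 * P / d :=
  card_blk hd hP (filter_subset _ _) fun _ hp _ hp' =>
    cong (mem_filter.1 hp).2.2 (mem_filter.1 hp').2.2

lemma card_Tc (hd : 0 < d) (hP : d ≤ P) : ((Tc s P d).card : ℝ) ≤ d * (2 * P / d) ^ (2 * s) := by
  refine (Nat.cast_le.2 card_biUnion_le).trans ?_
  push_cast
  refine (sum_le_card_nsmul _ _ ((2 * P / d : ℝ) ^ (2 * s)) fun b _ => ?_).trans (by simp)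
  rw [card_Tup, Nat.cast_pow]
  exact pow_le_pow_left₀ (Nat.cast_nonneg _) (card_blk hd hP (filter_subset _ _)
    fun p hp p' hp' => (mem_filter.1 hp).2.trans (mem_filter.1 hp').2.symm) _

lemma card_Ix (hd : 0 < d) (hP : d ≤ P) (hQ : Q ≤ M)
    (hD : ∀ m, m ≠ 0 → m ≤ M → (m.divisors.card : ℝ) ^ 3 ≤ D) (hD0 : 0 ≤ D) :
    ((Ix Q P d).card : ℝ) ≤ Q / P * D := by
  rw [card_eq_sum_card_fiberwise (f := fun z => z.2 * pr z.1) (t := Icc 1 (Q / P)) fun z hz => by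
    obtain ⟨h1, h2, h3, -⟩ := mem_Ix (mem_coe.1 hz)
    exact mem_coe.2 (mem_Icc.2 ⟨Nat.mul_pos (by omega) h1,
      (Nat.le_div_iff_mul_le (by omega)).2 h3⟩)]
  push_cast
  refine (sum_le_card_nsmul _ _ D fun m hm => ?_).trans ?_
  · have h0 := mem_Icc.1 hm
    refine le_trans ?_ (hD m (by omega) (h0.2.trans ((Nat.div_le_self _ _).trans hQ)))
    rw [← card_D3, Nat.cast_le]
    refine card_le_card_of_injOn (fun z => z.1) (fun z hz => ?_) fun z hz z' hz' e => ?_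
    · exact mem_coe.2 (mem_D3 (by omega) (Dvd.intro_left _ (mem_filter.1 (mem_coe.1 hz)).2))
    · obtain ⟨h1, h2⟩ := mem_filter.1 (mem_coe.1 hz)
      have h3 := (mem_filter.1 (mem_coe.1 hz')).2
      have e' : z.1 = z'.1 := e
      rw [← h2, ← e'] at h3
      exact Prod.ext e' (Nat.eq_of_mul_eq_mul_right (mem_Ix h1).1 h3).symm
  · rw [Nat.card_Icc, nsmul_eq_mul, Nat.add_sub_cancel]
    exact mul_le_mul_of_nonneg_right Nat.cast_div_le hD0

/-- the condition on a tuple off the diagonal -/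
def Off (d : ℕ) (j : Fin s ⊕ Fin s) (z : (ℕ × ℕ × ℕ) × ℕ) (t : Fin s ⊕ Fin s → ℕ) : Prop :=
  num t ≠ 0 ∧ (pr z.1 : ℤ) ∣ 36 * num t ∧ (d : ℤ) ∣ z.2 * t j * pr z.1 - 1

instance (d : ℕ) (j : Fin s ⊕ Fin s) (z : (ℕ × ℕ × ℕ) × ℕ) (t : Fin s ⊕ Fin s → ℕ) :
    Decidable (Off d j z t) := by unfold Off; infer_instance

lemma one (ha : Adm a) (hd : 0 < d) (hP : d ≤ P) (j : Fin s) (hz : z ∈ Ix Q P d) :
    ((Yg a P d z).card : ℝ) ^ (2 * s) ≤ 15 * s * pr z.1 / d *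
      (s ^ (2 * s) * (2 * P / d) ^ s + ((Tc s P d).filter (Off d (.inl j) z)).card) := by
  obtain ⟨h1, h2, h3, h4⟩ := mem_Ix hz
  have hs : 0 < s := j.pos
  have k1 := energy (s := s) (W := 5 * pr z.1 / d) (T := z.1) (g := z.2 * d) ha (Yg a P d z) hs
    fun p hp => by
      classical
      obtain ⟨w, c1, c2⟩ := (mem_filter.1 hp).2
      refine ⟨w, ?_, c2⟩
      rw [Int.natCast_div, Int.le_ediv_iff_mul_le (by exact_mod_cast hd)]
      exact_mod_cast c1
  have k2 : ((2 * s * (5 * pr z.1 / d) + 1 : ℕ) : ℝ) ≤ 15 * s * pr z.1 / d := by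
    have c1 : 1 ≤ s * (5 * pr z.1 / d) := Nat.mul_pos hs (Nat.div_pos h4 hd)
    have c2 : ((5 * pr z.1 / d : ℕ) : ℝ) ≤ (5 * pr z.1 : ℕ) / d := Nat.cast_div_le
    have c3 : ((2 * s * (5 * pr z.1 / d) + 1 : ℕ) : ℝ) ≤ (3 * s * (5 * pr z.1 / d) : ℕ) := by
      rw [Nat.cast_le, mul_assoc, mul_assoc]
      omega
    refine c3.trans ?_
    push_cast at c2 ⊢
    calc _ ≤ 3 * s * (5 * (pr z.1 : ℝ) / d) := by gcongr
      _ = _ := by ring
  have hY : Yg a P d z ⊆ Yb P d z := by classical exact filter_subset _ _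
  have k3 : ((Tup s (Yg a P d z)).filter fun t => (pr z.1 : ℤ) ∣ 36 * num t) ⊆
      ((Tup s (Yb P d z)).filter fun t => num t = 0) ∪ (Tc s P d).filter (Off d (.inl j) z) := by
    intro t ht
    obtain ⟨c1, c2⟩ := mem_filter.1 ht
    have c3 : ∀ i, t i ∈ Yb P d z := fun i => hY (mem_Tup.1 c1 i)
    by_cases c4 : num t = 0
    · exact mem_union_left _ (mem_filter.2 ⟨mem_Tup.2 c3, c4⟩)
    refine mem_union_right _ (mem_filter.2 ⟨mem_biUnion.2 ⟨t (.inl j) % d,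
      mem_range.2 (Nat.mod_lt _ hd), mem_Tup.2 fun i => mem_filter.2 ⟨(mem_filter.1 (c3 i)).1,
        cong (mem_filter.1 (c3 i)).2.2 (mem_filter.1 (c3 _)).2.2⟩⟩, c4, c2,
          (mem_filter.1 (c3 _)).2.2⟩)
  have k4 := (card_le_card k3).trans ((card_union_le _ _).trans (Nat.add_le_add_right
    (diag (s := s) _ fun p hp => (mem_filter.1 hp).2.1) _))
  have k5 := card_Yb (z := z) hd hP
  calc _ ≤ (((2 * s * (5 * pr z.1 / d) + 1) * (s ^ (2 * s) * (Yb P d z).card ^ s +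
        ((Tc s P d).filter (Off d (.inl j) z)).card) : ℕ) : ℝ) := by
        exact_mod_cast k1.trans (Nat.mul_le_mul_left _ k4)
    _ ≤ _ := by
        rw [Nat.cast_mul]
        refine mul_le_mul k2 ?_ (Nat.cast_nonneg _) (by positivity)
        push_cast
        gcongr

lemma num_le {t : Fin s ⊕ Fin s → ℕ} (ht : t ∈ Tc s P d) (hP : 0 < P) :
    (36 * num t).natAbs ≤ 72 * s * (2 * P) ^ (2 * s) := by
  obtain ⟨b, -, hb⟩ := mem_biUnion.1 ht
  have h1 : ∀ i, t i ≤ 2 * P := fun i => (mem_Ico.1 (mem_filter.1 (mem_Tup.1 hb i)).1).2.le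
  have h2 : |num t| ≤ 2 * s * (2 * P) ^ (2 * s) := by
    refine (abs_sum_le_sum_abs _ _).trans ((sum_le_card_nsmul _ _ ((2 * P : ℤ) ^ (2 * s))
      fun j _ => ?_).trans (by simp [two_mul]))
    rw [abs_mul, abs_sg, one_mul, abs_of_nonneg (by positivity)]
    have := (prod_le_pow_card (univ.erase j) t (2 * P) fun i _ => h1 i).trans
      (Nat.pow_le_pow_right (n := 2 * P) (j := 2 * s) (by omega)
        ((card_le_univ _).trans (by simp [two_mul])))
    exact_mod_cast this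
  zify
  rw [abs_mul, abs_of_nonneg (by norm_num : (0 : ℤ) ≤ 36)]
  linarith

lemma off (hd : 0 < d) (hP : d ≤ P) (j : Fin s ⊕ Fin s) (hM : 72 * s * (2 * P) ^ (2 * s) ≤ M)
    (hD : ∀ m, m ≠ 0 → m ≤ M → (m.divisors.card : ℝ) ^ 3 ≤ D) (hD0 : 0 ≤ D) :
    ∑ z ∈ Ix Q P d, (pr z.1 : ℝ) * ((Tc s P d).filter (Off d j z)).card ≤
      2 * Q / P * D * (2 * P / d) ^ (2 * s) := by
  have hd' : (0 : ℝ) < d := by exact_mod_cast hd
  have hP0 : 0 < P := by omega
  have hP' : (0 : ℝ) < P := by exact_mod_cast hP0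
  have key : ∀ t ∈ Tc s P d, ∑ z ∈ (Ix Q P d).filter (Off d j · t), (pr z.1 : ℝ) ≤
      D * (2 * Q / (P * d)) := by
    intro t ht
    by_cases h0 : num t = 0
    · rw [filter_false_of_mem fun z _ h => h.1 h0, sum_empty]
      positivity
    have h1 : (36 * num t).natAbs ≠ 0 := by simpa using h0
    rw [← sum_fiberwise_of_maps_to (g := fun z => z.1) (t := D3 (36 * num t).natAbs)
      fun z hz => mem_D3 h1 (Int.natCast_dvd.1 (mem_filter.1 hz).2.2.1)]
    refine (sum_le_card_nsmul _ _ (2 * Q / (P * d) : ℝ) fun T _ => ?_).trans ?_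
    · rcases (((Ix Q P d).filter (Off d j · t)).filter fun z => z.1 = T).eq_empty_or_nonempty with
        e | ⟨z0, e⟩
      · rw [e, sum_empty]
        positivity
      have h2 : ∀ z ∈ ((Ix Q P d).filter (Off d j · t)).filter fun z => z.1 = T,
          0 < pr T ∧ d ≤ z.2 ∧ z.2 ≤ Q / (pr T * P) ∧ (d : ℤ) ∣ t j * z.2 * pr T - 1 := by
        intro z hz
        obtain ⟨c1, rfl⟩ := mem_filter.1 hz
        obtain ⟨c2, c3⟩ := mem_filter.1 c1
        obtain ⟨c4, c5, c6, -⟩ := mem_Ix c2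
        exact ⟨c4, c5, (Nat.le_div_iff_mul_le (by positivity)).2 (by rwa [← mul_assoc]),
          mul_comm (z.2 : ℤ) _ ▸ c3.2.2⟩
      have h3 := h2 z0 e
      have h4 : (0 : ℝ) < pr T := by exact_mod_cast h3.1
      rw [sum_congr rfl (g := fun _ => (pr T : ℝ)) fun z hz => by rw [(mem_filter.1 hz).2],
        sum_const, nsmul_eq_mul, ← card_image_of_injOn (f := fun z => z.2) fun z hz z' hz' e' =>
          Prod.ext ((mem_filter.1 hz).2.trans (mem_filter.1 hz').2.symm) e']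
      have h5 := cls (A := 0) (L := Q / (pr T * P))
        (S := (((Ix Q P d).filter (Off d j · t)).filter fun z => z.1 = T).image fun z => z.2) hd
        (h3.2.1.trans h3.2.2.1)
        (forall_mem_image.2 fun z hz => ⟨Nat.zero_le _, by simpa using (h2 z hz).2.2.1⟩)
        (forall_mem_image.2 fun z hz => forall_mem_image.2 fun z' hz' =>
          cong (h2 z hz).2.2.2 (h2 z' hz').2.2.2)
      have h6 : ((Q / (pr T * P) : ℕ) : ℝ) ≤ Q / (pr T * P : ℕ) := Nat.cast_div_le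
      calc _ ≤ 2 * (Q / (pr T * P : ℕ)) / d * (pr T : ℝ) := by
            refine mul_le_mul_of_nonneg_right (h5.trans ?_) h4.le
            gcongr
        _ = _ := by
            push_cast
            field_simp
    · rw [nsmul_eq_mul, card_D3]
      exact mul_le_mul_of_nonneg_right (hD _ h1 ((num_le ht hP0).trans hM)) (by positivity)
  calc _ = ∑ t ∈ Tc s P d, ∑ z ∈ (Ix Q P d).filter (Off d j · t), (pr z.1 : ℝ) := by
        simp only [card_filter, sum_filter, Nat.cast_sum, mul_sum]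
        rw [sum_comm]
        refine sum_congr rfl fun t _ => sum_congr rfl fun z _ => ?_
        split_ifs <;> simp
    _ ≤ d * (2 * P / d) ^ (2 * s) * (D * (2 * Q / (P * d))) := by
        refine (sum_le_card_nsmul _ _ _ key).trans ?_
        rw [nsmul_eq_mul]
        exact mul_le_mul_of_nonneg_right (card_Tc hd hP) (by positivity)
    _ = _ := by field_simp

lemma amgm {t τ : ℝ} (n : ℕ) (ht : 0 ≤ t) (hτ : 0 < τ) : t ≤ τ + τ * (t ^ (n + 1) / τ ^ (n + 1)) := by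
  rcases le_total t τ with h | h
  · exact h.trans (le_add_of_nonneg_right (by positivity))
  · have h1 : 1 ≤ t / τ := (one_le_div hτ).2 h
    have h2 : t / τ ≤ (t / τ) ^ (n + 1) := le_self_pow₀ h1 (by omega)
    rw [← div_pow]
    have h3 : t = τ * (t / τ) := by field_simp
    nlinarith

/-- the main count -/
theorem core (ha : Adm a) (hs : 0 < s) (hd : 0 < d) (hP : d ≤ P) (hQ : Q ≤ M)
    (hM : 72 * s * (2 * P) ^ (2 * s) ≤ M) (hU : (Q : ℝ) ≤ (2 * P / d) ^ s)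
    (hD : ∀ m, m ≠ 0 → m ≤ M → (m.divisors.card : ℝ) ^ 3 ≤ D) {θ : ℝ} (hθ : 0 < θ)
    (h1 : 1 ≤ d * θ ^ (2 * s)) :
    ∑ z ∈ Ix Q P d, ((Yg a P d z).card : ℝ) ≤ 92 * s ^ (2 * s + 1) * D * θ * Q / d := by
  have hd' : (0 : ℝ) < d := by exact_mod_cast hd
  have hP0 : 0 < P := by omega
  have hP' : (0 : ℝ) < P := by exact_mod_cast hP0
  have hD0 : 0 ≤ D := le_trans (by positivity) (hD 1 one_ne_zero
    (le_trans (Nat.succ_le_of_lt (by positivity)) hM))
  have hs' : (1 : ℝ) ≤ s := by exact_mod_cast hs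
  have hE : (1 : ℝ) ≤ s ^ (2 * s) := one_le_pow₀ hs'
  have k0 := card_Ix hd hP hQ hD hD0
  have k1 := off (Q := Q) hd hP (.inl ⟨0, hs⟩) hM hD hD0
  set U : ℝ := 2 * P / d with hUdef
  have hU0 : 0 < U := by positivity
  have k2 : ∑ z ∈ Ix Q P d, ((Yg a P d z).card : ℝ) ^ (2 * s) ≤
      45 * s ^ (2 * s + 1) * (Q / P * D) * U ^ (2 * s) / d := by
    calc _ ≤ ∑ z ∈ Ix Q P d, 15 * s / d * (s ^ (2 * s) * U ^ (2 * s) +
          (pr z.1 : ℝ) * ((Tc s P d).filter (Off d (.inl ⟨0, hs⟩) z)).card) := by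
          refine sum_le_sum fun z hz => (one ha hd hP ⟨0, hs⟩ hz).trans ?_
          obtain ⟨c1, c2, c3, -⟩ := mem_Ix hz
          have c4 : pr z.1 ≤ Q := le_trans ((Nat.le_mul_of_pos_left _ (by omega)).trans
            (Nat.le_mul_of_pos_right _ hP0)) c3
          have c5 : (pr z.1 : ℝ) ≤ U ^ s := le_trans (by exact_mod_cast c4) hU
          rw [← hUdef, two_mul s, pow_add U]
          calc _ = 15 * s / d * (s ^ (s + s) * (pr z.1 * U ^ s) +
              (pr z.1 : ℝ) * ((Tc s P d).filter (Off d (.inl ⟨0, hs⟩) z)).card) := by ring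
            _ ≤ _ := by gcongr
      _ ≤ 15 * s / d * (Q / P * D * (s ^ (2 * s) * U ^ (2 * s)) +
          s ^ (2 * s) * (2 * Q / P * D * U ^ (2 * s))) := by
          rw [← mul_sum, sum_add_distrib, sum_const, nsmul_eq_mul]
          gcongr
          exact k1.trans (le_mul_of_one_le_left (by positivity) hE)
      _ = _ := by ring
  obtain ⟨n, hn⟩ : ∃ n, 2 * s = n + 1 := ⟨2 * s - 1, by omega⟩
  have k3 : 1 / (d * θ ^ (2 * s)) ≤ 1 := (div_le_one (by positivity)).2 h1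
  calc _ ≤ ∑ z ∈ Ix Q P d, (θ * U + θ * U * (((Yg a P d z).card : ℝ) ^ (2 * s) /
        (θ * U) ^ (2 * s))) := sum_le_sum fun z _ => by
          rw [hn]
          exact amgm n (Nat.cast_nonneg _) (by positivity)
    _ ≤ Q / P * D * (θ * U) + θ * U * (45 * s ^ (2 * s + 1) * (Q / P * D) * U ^ (2 * s) / d /
        (θ * U) ^ (2 * s)) := by
          rw [sum_add_distrib, sum_const, nsmul_eq_mul, ← mul_sum, ← sum_div]
          gcongr
    _ = 2 * D * θ * Q / d * (1 + 45 * s ^ (2 * s + 1) * (1 / (d * θ ^ (2 * s)))) := by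
          rw [mul_pow]
          have hV : U ^ (2 * s) ≠ 0 := by positivity
          generalize U ^ (2 * s) = V at hV ⊢
          rw [hUdef]
          field_simp
    _ ≤ 2 * D * θ * Q / d * (s ^ (2 * s + 1) + 45 * s ^ (2 * s + 1) * 1) := by
          gcongr
          exact one_le_pow₀ hs'
    _ = _ := by ring

end Pool.Agent.MP_47ed89_co.H76

end MrgPart1

-- ======== part 2: formerly Pool.Agent.MP_47ed89_co.h76.Sieve
section MrgPart2

/-!
Shifted primes without a prime factor in a given range.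
-/

set_option autoImplicit false

namespace Pool.Agent.MP_47ed89_co.H76

open Finset Pool.Agent.MP_a43263_nt.R2

/-- the primes `q` for which `q - h` has no prime factor in the range -/
def Fr (h : ℤ) (Q a b z : ℕ) : Finset ℕ :=
  (Icc 1 Q).filter fun q => q.Prime ∧ z < q ∧ ∀ p ∈ pri a b, ¬(p : ℤ) ∣ q - h

theorem sieve : ∃ (C : ℝ) (z0 : ℕ), 0 < C ∧ ∀ (h Q a b z : ℕ), 0 < h → h ≤ 3 → 4 ≤ a → a ≤ b →
    b ≤ z → z0 ≤ z → ((Fr h Q a b z).card : ℝ) ≤
      C * Q * (1 + Real.log a) / (Real.log z * Real.log b) + 2 * z ^ 60 := by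
  classical
  obtain ⟨-, ⟨C, hC⟩, -, ⟨c, hc, hm⟩, -⟩ := mer
  refine ⟨2 / c ^ 2, ⌈Real.exp (4 * C)⌉₊, by positivity, fun h Q a b z h0 h3 ha hab hbz hz => ?_⟩
  have hz0 : (0 : ℝ) < z := by exact_mod_cast (by omega : 0 < z)
  have lz : 0 < Real.log z := Real.log_pos (by exact_mod_cast (by omega : 1 < z))
  have lb : 0 < Real.log b := Real.log_pos (by exact_mod_cast (by omega : 1 < b))
  have la : 0 ≤ Real.log a := Real.log_natCast_nonneg a
  have hz1 : 4 * C ≤ Real.log z := (Real.le_log_iff_exp_le hz0).2 (Nat.ceil_le.1 hz)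
  set ω : ℕ → ℕ := fun p => if a < p ∧ p ≤ b then 2 else 1 with hω
  set w : ℕ → ℝ := fun p => (ω p : ℝ) / (p - ω p) with hw
  have hp : ∀ p ∈ pri 1 z, p.Prime := fun p hp => (Mer.mem_pri.1 hp).2
  have hw1 : ∀ p ∈ pri 1 z, 0 ≤ w p ∧ w p ≤ 4 / p ∧
      (1 + 1 / (p : ℝ)) * (if a < p ∧ p ≤ b then 1 + 1 / (p : ℝ) else 1) ≤ 1 + w p := by
    intro p hp'
    have p2 : (2 : ℝ) ≤ p := by exact_mod_cast (hp p hp').two_le
    simp only [hw, hω]
    split_ifs with e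
    · have p5 : (5 : ℝ) ≤ p := by exact_mod_cast (by omega : 5 ≤ p)
      have p6 : (0 : ℝ) < p - 2 := by linarith
      push_cast
      refine ⟨by positivity, by rw [div_le_div_iff₀ p6 (by linarith)]; linarith, ?_⟩
      rw [← sub_nonneg, show 1 + 2 / ((p : ℝ) - 2) - (1 + 1 / p) * (1 + 1 / p) =
        (3 * p + 2) / (p ^ 2 * (p - 2)) by field_simp; ring]
      positivity
    · have p6 : (0 : ℝ) < p - 1 := by linarith
      push_cast
      refine ⟨by positivity, by rw [div_le_div_iff₀ p6 (by linarith)]; linarith, ?_⟩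
      rw [mul_one]
      gcongr
      linarith
  have k1 := sv crt (pri 1 z) (fun p n => (p : ℤ) ∣ n ∨ (a < p ∧ p ≤ b) ∧ (p : ℤ) ∣ n - h) ω
    ((pri 1 z).powerset.filter fun A => ∏ p ∈ A, p ≤ z ^ 10) 1 Q (z ^ 10) hp
    (fun p _ n => by rw [add_sub_right_comm, dvd_add_self_right, dvd_add_self_right])
    (fun p hp' => by
      have p2 := (hp p hp').two_le
      have e0 : ∀ r ∈ range p, ((p : ℤ) ∣ r ↔ r = 0) := fun r hr =>
        ⟨fun e => Nat.eq_zero_of_dvd_of_lt (by exact_mod_cast e) (mem_range.1 hr),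
          fun e => by simp [e]⟩
      simp only [hω]
      split_ifs with e
      · refine ⟨?_, by omega⟩
        rw [← card_pair h0.ne]
        congr 1
        ext r
        simp only [mem_filter, mem_insert, mem_singleton]
        constructor
        · rintro ⟨hr, e1 | e1⟩
          · exact .inl ((e0 r hr).1 e1)
          · have := mem_range.1 hr
            have := Int.eq_zero_of_abs_lt_dvd e1.2 (by rw [abs_lt]; omega)
            omega
        · rintro (rfl | rfl)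
          · exact ⟨mem_range.2 (by omega), .inl (by simp)⟩
          · exact ⟨mem_range.2 (by omega), .inr ⟨e, by simp⟩⟩
      · refine ⟨?_, by omega⟩
        rw [← card_singleton 0]
        congr 1
        ext r
        simp only [mem_filter, mem_singleton]
        constructor
        · rintro ⟨hr, e1 | e1⟩
          · exact (e0 r hr).1 e1
          · exact absurd e1.1 e
        · rintro rfl
          exact ⟨mem_range.2 (by omega), .inl (by simp)⟩)
    (mem_filter.2 ⟨empty_mem_powerset _, by simpa using Nat.one_le_pow 10 z (by omega)⟩)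
    fun A hA => ⟨mem_powerset.1 (mem_filter.1 hA).1, (mem_filter.1 hA).2⟩
  have k2 := (pm (pri 1 z) w fun p hp => (hw1 p hp).1).1 (fun p => Real.log p) (10 * Real.log z)
    fun p _ => Real.log_natCast_nonneg p
  have k3 : ∑ p ∈ pri 1 z, Real.log p * w p ≤ 5 * Real.log z := by
    have := hC 1 z (by omega)
    refine (sum_le_sum fun p hp => mul_le_mul_of_nonneg_left (hw1 p hp).2.1
      (Real.log_natCast_nonneg p)).trans ?_
    rw [sum_congr rfl (g := fun p : ℕ => 4 * (Real.log p / p)) fun p _ => by ring, ← mul_sum]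
    linarith
  have k4 : c * Real.log z * (c * Real.log b / (1 + Real.log a)) ≤ ∏ p ∈ pri 1 z, (1 + w p) := by
    refine le_trans ?_ (prod_le_prod (fun p _ => by positivity) fun p hp => (hw1 p hp).2.2)
    rw [prod_mul_distrib, ← prod_filter, show (pri 1 z).filter (fun p => a < p ∧ p ≤ b) = pri a b by
      ext p
      simp only [mem_filter, Mer.mem_pri]
      exact ⟨fun e => ⟨e.2, e.1.2⟩, fun e => ⟨⟨by omega, e.2⟩, e.1⟩⟩]
    refine mul_le_mul (by simpa using hm 1 z le_rfl (by omega)) ?_ (by positivity) (by positivity)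
    rw [div_le_iff₀' (by positivity)]
    exact hm a b (by omega) hab
  have k0 : 0 < c * Real.log z * (c * Real.log b / (1 + Real.log a)) := by positivity
  have k5 : (∏ p ∈ pri 1 z, (1 + w p)) / 2 ≤
      ∑ A ∈ (pri 1 z).powerset.filter (fun A => ∏ p ∈ A, p ≤ z ^ 10), ∏ p ∈ A, w p := by
    have e1 := sum_filter_add_sum_filter_not (pri 1 z).powerset (fun A => ∏ p ∈ A, p ≤ z ^ 10)
      fun A => ∏ p ∈ A, w p
    rw [← prod_one_add] at e1
    have e2 : (pri 1 z).powerset.filter (fun A => ¬∏ p ∈ A, p ≤ z ^ 10) =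
        (pri 1 z).powerset.filter fun A => 10 * Real.log z < ∑ p ∈ A, Real.log (p : ℕ) := by
      refine filter_congr fun A hA => ?_
      have e3 : ∀ p ∈ A, (0 : ℝ) < p := fun p hp' => by
        exact_mod_cast (hp p (mem_powerset.1 hA hp')).pos
      rw [← Real.log_prod fun p hp' => (e3 p hp').ne', not_le,
        show (10 : ℝ) * Real.log z = Real.log (z ^ 10) by simp,
        Real.log_lt_log_iff (by positivity) (prod_pos e3), ← Nat.cast_prod, ← Nat.cast_pow,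
        Nat.cast_lt]
    rw [e2] at e1
    have e3 := k2.trans (mul_le_mul_of_nonneg_right k3 (k0.le.trans k4))
    nlinarith
  refine le_trans ?_ (k1.trans (add_le_add ?_ (le_of_eq (by push_cast; ring))))
  · rw [Nat.cast_le]
    refine card_le_card_of_injOn (fun q => (q : ℤ)) (fun q hq => ?_) fun _ _ _ _ e =>
      Int.ofNat_inj.1 e
    obtain ⟨e1, e2, e3, e4⟩ := mem_filter.1 (mem_coe.1 hq)
    simp only [coe_filter, Set.mem_ofPred_eq, mem_Ico]
    refine ⟨by have := mem_Icc.1 e1; omega, fun p hp' => ?_⟩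
    rintro (e | e)
    · have := (Nat.prime_dvd_prime_iff_eq (hp p hp') e2).1 (by exact_mod_cast e)
      have := (Mer.mem_pri.1 hp').1
      omega
    · exact e4 p (Mer.mem_pri.2 ⟨e.1, hp p hp'⟩) e.2
  · refine (div_le_div_of_nonneg_left (Nat.cast_nonneg _) (half_pos k0)
      (le_trans (by linarith) k5)).trans (le_of_eq ?_)
    field_simp

end Pool.Agent.MP_47ed89_co.H76

end MrgPart2

-- ======== part 3: formerly Pool.Agent.MP_47ed89_co.h76.Arith
section MrgPart3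

/-!
For almost all primes `q` the divisibility conditions have no solution.
-/

set_option autoImplicit false

namespace Pool.Agent.MP_47ed89_co.H76

open Finset Filter Pool.Agent.MP_a43263_nt.R2

/-- the divisibility conditions -/
def Dv (q : ℕ) : Prop := ∃ k : ℤ, 4 ≤ k ∧ k + 2 < q ∧
  (q - 2 : ℤ) ∣ k * (k - 1) * (k - 2) * (k - 3) ∧
  (q - 3 : ℤ) ∣ k * (k - 1) * (k - 2) * (k - 3) * (k - 4)

/-- the four triples of shifts -/
def As : Finset (ℤ × ℤ × ℤ) := {(-1, -2, -3), (1, -1, -2), (2, 1, -1), (3, 2, 1)}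

lemma adm {a : ℤ × ℤ × ℤ} (h : a ∈ As) : Adm a := by
  simp only [As, mem_insert, mem_singleton] at h
  rcases h with rfl | rfl | rfl | rfl <;> exact ⟨by decide, by decide, by decide, by decide⟩

lemma mk {n A d p p' P Q : ℕ} {T : ℕ × ℕ × ℕ} {a : ℤ × ℤ × ℤ} {u c : ℤ} (hn : n = A * pr T)
    (hc : |c| ≤ 4) (h0 : 0 < u) (h1 : u < n) (hA : (A : ℤ) ∣ u) (hT : Rt a T u)
    (hd : (d : ℤ) ∣ n - 1) (hd' : (d : ℤ) ∣ u - c) (hp : p.Prime) (hp' : p'.Prime) (hne : p ≠ p')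
    (e : p ∣ A) (e' : p' ∣ A) (hdp : d ≤ p') (hP : P ≤ p) (hP' : p < 2 * P) (hQ : n ≤ Q) :
    ∃ z ∈ Ix Q P d, p ∈ Yg a P d z ∧ n = z.2 * p * pr z.1 := by
  classical
  obtain ⟨m, rfl⟩ := ((Nat.coprime_primes hp hp').2 hne).mul_dvd_of_dvd_of_dvd e e'
  have hn0 : 0 < n := by omega
  have hn' : (n : ℤ) = (p * p' * m : ℕ) * pr T := by exact_mod_cast hn
  have hm : 0 < p * p' * m ∧ 0 < pr T := CanonicallyOrderedAdd.mul_pos.1 (hn ▸ hn0)
  have hm0 : 0 < m := Nat.pos_of_mul_pos_left hm.1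
  obtain ⟨f, hf⟩ := id hd
  obtain ⟨w, hw⟩ : ((p * p' * m : ℕ) : ℤ) * d ∣ u - c * n := by
    refine IsCoprime.mul_dvd ⟨pr T, -f, by linear_combination hf - hn'⟩
      (hA.sub (Dvd.dvd.mul_left ⟨_, hn'⟩ _)) ?_
    rw [show u - c * n = u - c - c * (n - 1) by ring]
    exact hd'.sub (hd.mul_left _)
  obtain ⟨c1, c2⟩ := abs_le.1 hc
  have hw0 : w ≠ 0 := by
    rintro rfl
    rcases le_or_gt c 0 with h | h <;> nlinarith
  have hw1 : |w| * d ≤ 5 * pr T := by
    refine le_of_mul_le_mul_left (a := ((p * p' * m : ℕ) : ℤ)) ?_ (by exact_mod_cast hm.1)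
    have : |u - c * n| ≤ 5 * n := abs_le.2 ⟨by nlinarith, by nlinarith⟩
    rw [hw, abs_mul, abs_of_nonneg (by positivity)] at this
    linarith [congrArg (5 * ·) hn']
  have hw2 : (d : ℤ) ≤ 5 * pr T :=
    (le_mul_of_one_le_left (by positivity) (Int.one_le_abs hw0)).trans hw1
  have hn2 : n = p' * m * p * pr T := by rw [hn]; ring
  have hT' := mem_D3 (T := T) hn0.ne' (Dvd.intro_left _ hn.symm)
  simp only [D3, mem_product, Nat.mem_divisors] at hT'
  have hI : ∀ r, r ∣ n → r ∈ Icc 1 Q := fun r hr =>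
    mem_Icc.2 ⟨Nat.pos_of_dvd_of_pos hr hn0, (Nat.le_of_dvd hn0 hr).trans hQ⟩
  have hu : ((p' * m : ℕ) : ℤ) * d * p * w = u - c * n := by
    rw [hw]
    push_cast
    ring
  have hR : ∀ (r : ℕ) (b : ℤ), r ∣ n → (r : ℤ) ∣ u + b → (r : ℤ) ∣ u - c * n + b := fun r b g1 g2 => by
    rw [sub_add_eq_add_sub]
    exact g2.sub (Dvd.dvd.mul_left (by exact_mod_cast g1) _)
  refine ⟨(T, p' * m), mem_filter.2 ⟨mem_product.2 ⟨mem_product.2 ⟨hI _ hT'.1.1,
    mem_product.2 ⟨hI _ hT'.2.1.1, hI _ hT'.2.2.1⟩⟩, mem_Icc.2 ⟨hdp.trans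
      (Nat.le_mul_of_pos_right _ hm0), (mem_Icc.1 (hI _ ⟨p * pr T, by rw [hn2]; ring⟩)).2⟩⟩,
    le_trans ?_ hQ, by exact_mod_cast hw2⟩, mem_filter.2 ⟨mem_filter.2 ⟨mem_Ico.2 ⟨hP, hP'⟩, hp, ?_⟩,
      w, hw1, ?_⟩, hn2⟩
  · rw [hn2, mul_right_comm]
    gcongr
  · rw [hn2] at hd
    exact_mod_cast hd
  · simp only [hu]
    exact ⟨hR _ _ hT'.1.1 hT.1, hR _ _ hT'.2.1.1 hT.2.1, hR _ _ hT'.2.2.1 hT.2.2⟩

lemma split {q d Q : ℕ} (hq : Dv q) (hd : d.Prime) (hdq : (d : ℤ) ∣ q - 3) (p : Fin 5 → ℕ)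
    (hp : ∀ j, (p j).Prime ∧ (p j : ℤ) ∣ q - 2) (mono : StrictMono p) (h0 : d ≤ p 0) (hQ : q ≤ Q) :
    ∃ a ∈ As, ∃ j, 0 < j ∧ ∃ z ∈ Ix Q (2 ^ Nat.log 2 (p j)) d,
      p j ∈ Yg a (2 ^ Nat.log 2 (p j)) d z ∧ q = z.2 * p j * pr z.1 + 2 := by
  obtain ⟨k, h1, h2, h3, h4⟩ := hq
  obtain ⟨n, rfl⟩ : ∃ n, q = n + 2 := ⟨q - 2, by omega⟩
  have e2 : ((n + 2 : ℕ) : ℤ) - 2 = n := by push_cast; ring
  have e3 : ((n + 2 : ℕ) : ℤ) - 3 = n - 1 := by push_cast; ring
  simp only [e2, e3, Int.natCast_dvd_natCast] at h3 h4 hp hdq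
  obtain ⟨c, c0, c4, hc⟩ : ∃ c : ℤ, 0 ≤ c ∧ c ≤ 4 ∧ (d : ℤ) ∣ k - c := by
    have := hdq.trans h4
    simp only [(Nat.prime_iff_prime_int.1 hd).dvd_mul] at this
    rcases this with (((h | h) | h) | h) | h
    exacts [⟨0, by omega, by omega, by simpa using h⟩, ⟨1, by omega, by omega, h⟩,
      ⟨2, by omega, by omega, h⟩, ⟨3, by omega, by omega, h⟩, ⟨4, by omega, by omega, h⟩]
  rw [Int.natCast_dvd, Int.natAbs_mul, Int.natAbs_mul, Int.natAbs_mul] at h3
  obtain ⟨B, A3, b, a3, rfl⟩ := exists_dvd_and_dvd_of_dvd_mul h3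
  obtain ⟨B', A2, b', a2, rfl⟩ := exists_dvd_and_dvd_of_dvd_mul b
  obtain ⟨A0, A1, a0, a1, rfl⟩ := exists_dvd_and_dvd_of_dvd_mul b'
  rw [← Int.natCast_dvd] at a0 a1 a2 a3
  have h5 : ∀ j, ∃ i : Fin 4, p j ∣ ![A0, A1, A2, A3] i := fun j => by
    have := (hp j).2
    simp only [(hp j).1.dvd_mul] at this
    rcases this with ((h | h) | h) | h
    exacts [⟨0, h⟩, ⟨1, h⟩, ⟨2, h⟩, ⟨3, h⟩]
  choose f hf using h5
  obtain ⟨j', j, hj, e⟩ : ∃ j' j, j' < j ∧ f j' = f j := by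
    obtain ⟨j, j', h, e⟩ := Fintype.exists_ne_map_eq_of_card_lt f (by simp)
    rcases lt_or_gt_of_ne h with h | h
    exacts [⟨_, _, h, e⟩, ⟨_, _, h, e.symm⟩]
  have key : ∀ (A : ℕ) (T : ℕ × ℕ × ℕ) (i : ℤ), ∀ a ∈ As, A0 * A1 * A2 * A3 = A * pr T → 0 ≤ i →
      i ≤ 3 → (A : ℤ) ∣ k - i → Rt a T (k - i) → p j ∣ A → p j' ∣ A →
      ∃ a ∈ As, ∃ j, 0 < j ∧ ∃ z ∈ Ix Q (2 ^ Nat.log 2 (p j)) d,
        p j ∈ Yg a (2 ^ Nat.log 2 (p j)) d z ∧ A0 * A1 * A2 * A3 + 2 = z.2 * p j * pr z.1 + 2 := by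
    intro A T i a ha g1 g2 g3 g4 g5 g6 g7
    obtain ⟨z, g8, g9, g10⟩ := mk (c := c - i) (Q := Q) (P := 2 ^ Nat.log 2 (p j)) g1
      (abs_le.2 ⟨by omega, by omega⟩) (by omega) (by omega) g4 g5 hdq (by simpa using hc) (hp j).1
      (hp j').1 (mono hj).ne' g6 g7 (h0.trans (mono.monotone (Fin.zero_le _)))
      (Nat.pow_log_le_self 2 (hp j).1.ne_zero)
      (by rw [← pow_succ']; exact Nat.lt_pow_succ_log_self one_lt_two _) (by omega)
    exact ⟨a, ha, j, (Fin.zero_le _).trans_lt hj, z, g8, g9, by rw [g10]⟩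
  have g6 := hf j
  have g7 := e ▸ hf j'
  generalize f j = i at g6 g7
  have r : ∀ {A : ℕ} {x y : ℤ}, (A : ℤ) ∣ x → x = y → (A : ℤ) ∣ y := fun h e => e ▸ h
  fin_cases i
  · exact key A0 (A1, A2, A3) 0 (-1, -2, -3) (by decide) (by rw [pr]; ring) (by omega) (by omega)
      (r a0 (by ring)) ⟨r a1 (by ring), r a2 (by ring), r a3 (by ring)⟩ g6 g7
  · exact key A1 (A0, A2, A3) 1 (1, -1, -2) (by decide) (by rw [pr]; ring) (by omega) (by omega)
      a1 ⟨r a0 (by ring), r a2 (by ring), r a3 (by ring)⟩ g6 g7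
  · exact key A2 (A0, A1, A3) 2 (2, 1, -1) (by decide) (by rw [pr]; ring) (by omega) (by omega)
      a2 ⟨r a0 (by ring), r a1 (by ring), r a3 (by ring)⟩ g6 g7
  · exact key A3 (A0, A1, A2) 3 (3, 2, 1) (by decide) (by rw [pr]; ring) (by omega) (by omega)
      a3 ⟨r a0 (by ring), r a1 (by ring), r a2 (by ring)⟩ g6 g7

/-- the solutions with a good factorisation -/
noncomputable def Mn (Q y : ℕ) : Finset ℕ :=
  As.biUnion fun a => (Icc y Q).biUnion fun d =>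
    ((range (Nat.log 2 Q + 1)).filter fun j => d * y ≤ 2 * 2 ^ j).biUnion fun j =>
      (Ix Q (2 ^ j) d).biUnion fun z => (Yg a (2 ^ j) d z).image fun p => z.2 * p * pr z.1 + 2

lemma card_Mn {s Q y : ℕ} {D θ : ℝ} (hs : 0 < s) (hy : 2 ≤ y) (hQ : Q ≤ y ^ s) (hQ0 : 0 < Q)
    (hD : ∀ m, m ≠ 0 → m ≤ 72 * s * (2 * Q) ^ (2 * s) → (m.divisors.card : ℝ) ^ 3 ≤ D)
    (hθ : 0 < θ) (h1 : 1 ≤ y * θ ^ (2 * s)) :
    ((Mn Q y).card : ℝ) ≤ 736 * s ^ (2 * s + 1) * D * θ * Q * (1 + Real.log Q) ^ 2 := by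
  have hD0 : 0 ≤ D := le_trans (by positivity) (hD 1 one_ne_zero (Nat.succ_le_of_lt (by positivity)))
  have hL := Real.log_natCast_nonneg Q
  have B : ∀ {α : Type} (S : Finset α) (t : α → Finset ℕ),
      ((S.biUnion t).card : ℝ) ≤ ∑ a ∈ S, ((t a).card : ℝ) := fun S t => by
    exact_mod_cast card_biUnion_le
  refine (B _ _).trans ((sum_le_card_nsmul _ _
    (2 * (1 + Real.log Q) * (92 * s ^ (2 * s + 1) * D * θ * Q) * (1 + Real.log Q))
    fun a ha => (B _ _).trans ?_).trans (le_of_eq ?_))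
  · calc _ ≤ ∑ d ∈ Icc y Q, 2 * (1 + Real.log Q) * (92 * s ^ (2 * s + 1) * D * θ * Q) * (d : ℝ)⁻¹ := by
          refine sum_le_sum fun d hd => (B _ _).trans ((sum_le_card_nsmul _ _
            (92 * s ^ (2 * s + 1) * D * θ * Q / d) fun j hj => (B _ _).trans ?_).trans ?_)
          · obtain ⟨c1, c2⟩ := mem_filter.1 hj
            have c3 := (mem_Icc.1 hd).1
            have c4 : 2 ^ j ≤ Q := Nat.pow_le_of_le_log hQ0.ne' (Nat.lt_succ_iff.1 (mem_range.1 c1))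
            have c5 : (0 : ℝ) < d := by exact_mod_cast (by omega : 0 < d)
            refine (sum_le_sum fun z _ => Nat.cast_le.2 card_image_le).trans
              (core (adm ha) hs (by omega) (by nlinarith) ?_ (by gcongr) ?_ hD hθ ?_)
            · exact le_trans ((by omega : Q ≤ 2 * Q).trans (Nat.le_self_pow (by omega) _))
                (Nat.le_mul_of_pos_left _ (by omega))
            · refine le_trans (b := (y : ℝ) ^ s) (by exact_mod_cast hQ) ?_
              gcongr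
              rw [le_div_iff₀' c5]
              exact_mod_cast c2
            · refine h1.trans ?_
              gcongr
          · rw [nsmul_eq_mul, div_eq_mul_inv, ← mul_assoc]
            gcongr
            refine le_trans ?_ (Do.log_two_le Q)
            exact_mod_cast (card_filter_le _ _).trans (card_range _).le
      _ ≤ _ := by
          rw [← mul_sum]
          gcongr
          refine le_trans (sum_le_sum_of_subset_of_nonneg (Icc_subset_Icc_left (by omega : 1 ≤ y))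
            fun _ _ _ => by positivity) ?_
          simpa [harmonic_eq_sum_Icc] using harmonic_le_one_add_log Q
  · rw [show As.card = 4 by decide, nsmul_eq_mul]
    push_cast
    ring

lemma cover {q Q y K : ℕ} (hy : 2 ≤ y) (hK : 2 ≤ K) (hq : q ∈ Icc 1 Q) (hp : q.Prime) (h : Dv q) :
    q ∈ Icc 1 (y ^ K ^ 6) ∪ Mn Q y ∪ (range 6).biUnion fun j =>
      Fr (if j = 0 then 3 else 2 : ℕ) Q (y ^ K ^ j) (y ^ K ^ (j + 1)) (y ^ K ^ 6) := by
  by_contra hc
  simp only [mem_union, mem_biUnion, not_or, not_exists, not_and, Fr, mem_filter, not_forall,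
    not_not] at hc
  obtain ⟨⟨c1, c2⟩, c3⟩ := hc
  have h1 := mem_Icc.1 hq
  have c4 : y ^ K ^ 6 < q := by
    by_contra e
    exact c1 (mem_Icc.2 ⟨h1.1, by omega⟩)
  obtain ⟨d, d1, d2⟩ := c3 0 (by simp) hq hp c4
  choose p p1 p2 using fun j : Fin 5 => c3 (j + 1) (mem_range.2 (by omega)) hq hp c4
  simp only [Mer.mem_pri] at d1 p1
  have mo : ∀ i j, i ≤ j → y ^ K ^ i ≤ y ^ K ^ j := fun i j e =>
    Nat.pow_le_pow_right (by omega) (Nat.pow_le_pow_right (by omega) e)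
  obtain ⟨a, ha, j, hj, z, z1, z2, z3⟩ := split h d1.2 (by simpa using d2) p
    (fun j => ⟨(p1 j).2, by simpa using p2 j⟩)
    (fun i j e => (p1 i).1.2.trans_lt ((mo _ _ (by omega)).trans_lt (p1 j).1.1))
    (d1.1.2.trans (p1 0).1.1.le) h1.2
  obtain ⟨z4, z5, z6, -⟩ := mem_Ix z1
  have d3 : y < d := by simpa using d1.1.1
  have z7 : z.2 * p j * pr z.1 ≤ Q := by omega
  have z8 : z.2 * p j ≤ Q := (Nat.le_mul_of_pos_right _ z4).trans z7
  refine c2 (mem_biUnion.2 ⟨a, ha, mem_biUnion.2 ⟨d, mem_Icc.2 ⟨d3.le, z5.trans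
    ((Nat.le_mul_of_pos_right _ (p1 j).2.pos).trans z8)⟩, mem_biUnion.2 ⟨_, mem_filter.2
      ⟨mem_range.2 (Nat.lt_succ_of_le (Nat.log_mono_right
        ((Nat.le_mul_of_pos_left _ (by omega)).trans z8))), ?_⟩,
      mem_biUnion.2 ⟨z, z1, mem_image.2 ⟨_, z2, z3.symm⟩⟩⟩⟩⟩)
  calc d * y ≤ y ^ K ^ 1 * y := Nat.mul_le_mul_right _ d1.1.2
    _ ≤ y ^ K ^ 2 := by
        rw [← pow_succ]
        exact Nat.pow_le_pow_right (by omega) (by nlinarith)
    _ ≤ p j := (mo _ _ (by omega)).trans (p1 j).1.1.le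
    _ ≤ _ := by
        rw [← pow_succ']
        exact (Nat.lt_pow_succ_log_self one_lt_two _).le

lemma ev (C : ℝ) {γ : ℝ} (hγ : 0 < γ) :
    ∀ᶠ Q : ℕ in atTop, C * Real.log Q ^ 3 ≤ (Q : ℝ) ^ γ := by
  have := ((isLittleO_log_rpow_rpow_atTop 3 hγ).const_mul_left C).eventuallyLE
  filter_upwards [tendsto_natCast_atTop_atTop.eventually this] with Q h
  rw [Real.norm_of_nonneg (by positivity : 0 ≤ (Q : ℝ) ^ γ)] at h
  exact le_trans (by exact_mod_cast le_abs_self _) h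

open Classical in
theorem arith {ε : ℝ} (hε : 0 < ε) : ∀ᶠ Q : ℕ in atTop,
    (((Icc 1 Q).filter fun q => q.Prime ∧ Dv q).card : ℝ) ≤ ε * Q / Real.log Q := by
  obtain ⟨C, z0, hC, hS⟩ := sieve
  obtain ⟨K, hK, hK'⟩ : ∃ K : ℕ, 2 ≤ K ∧ 8640 * C / ε ≤ K :=
    ⟨max 2 ⌈8640 * C / ε⌉₊, le_max_left _ _, Nat.ceil_le.1 (le_max_right _ _)⟩
  obtain ⟨N, hN⟩ : ∃ N, N = K ^ 6 * 120 := ⟨_, rfl⟩
  obtain ⟨s, hs⟩ : ∃ s, s = 2 * N := ⟨_, rfl⟩
  have K0 : 0 < K := by omega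
  have N0 : 0 < N := by rw [hN]; positivity
  have s0 : 0 < s := by omega
  have s1 : (0 : ℝ) < s := by exact_mod_cast s0
  obtain ⟨E, hE, hτ⟩ := MP_db1c88_nt.z94.divisor_bound (η := 1 / (60 * s ^ 3)) (by positivity)
  filter_upwards [ev (39 / ε) one_half_pos,
    ev (γ := 1 / (4 * s ^ 2)) (3 / ε * (2944 * s ^ (2 * s + 1) * E ^ 3)) (by positivity),
    eventually_ge_atTop ((max 4 z0) ^ N), eventually_ge_atTop (72 * s)] with Q e1 e2 e3 e4
  obtain ⟨y, y1, y2, y3⟩ : ∃ y, max 4 z0 ≤ y ∧ y ^ N ≤ Q ∧ Q ≤ y ^ s := by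
    have h := (Nat.le_nthRoot_iff N0.ne').2 e3
    refine ⟨_, h, Nat.pow_nthRoot_le_iff.2 (.inl N0.ne'),
      (Nat.lt_pow_nthRoot_add_one N0.ne' Q).le.trans ?_⟩
    rw [hs, pow_mul]
    have := (le_max_left _ _).trans h
    exact Nat.pow_le_pow_left (by nlinarith) _
  have y4 : 4 ≤ y := (le_max_left _ _).trans y1
  have Q0 : 0 < Q := by omega
  have Q1 : (1 : ℝ) < Q := by exact_mod_cast (by omega : 1 < Q)
  have Q2 : (0 : ℝ) < Q := by linarith
  have lg : ∀ n : ℕ, 3 ≤ n → 1 ≤ Real.log n := fun n hn => by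
    have h : (3 : ℝ) ≤ n := by exact_mod_cast hn
    rw [Real.le_log_iff_exp_le (by linarith)]
    linarith [Real.exp_one_lt_d9]
  have L1 := lg Q (by omega)
  have l1 := lg y (by omega)
  have L2 : Real.log Q ≤ 240 * (K ^ 6 * Real.log y) := by
    have := Real.log_le_log Q2 (show (Q : ℝ) ≤ y ^ s by exact_mod_cast y3)
    rw [Real.log_pow, hs, hN] at this
    push_cast at this
    linarith
  have r1 : ((y ^ K ^ 6 : ℕ) : ℝ) ^ 60 ≤ (Q : ℝ) ^ (1 / 2 : ℝ) := by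
    rw [← Real.sqrt_eq_rpow]
    refine Real.le_sqrt_of_sq_le ?_
    rw [← pow_mul, ← Nat.cast_pow, ← pow_mul, ← hN]
    exact_mod_cast y2
  have r2 : 13 * (Q : ℝ) ^ (1 / 2 : ℝ) ≤ ε / 3 * Q / Real.log Q := by
    rw [le_div_iff₀ (by linarith)]
    have a1 : (Q : ℝ) ^ (1 / 2 : ℝ) * (Q : ℝ) ^ (1 / 2 : ℝ) = Q := by
      rw [← Real.rpow_add Q2]
      norm_num
    calc _ = ε / 3 * ((Q : ℝ) ^ (1 / 2 : ℝ) * (39 / ε * Real.log Q)) := by field_simp; norm_num
      _ ≤ ε / 3 * ((Q : ℝ) ^ (1 / 2 : ℝ) * (Q : ℝ) ^ (1 / 2 : ℝ)) := by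
          gcongr
          refine le_trans ?_ e1
          gcongr
          exact le_self_pow₀ L1 (by norm_num)
      _ = _ := by rw [a1]
  have r3 : ((Mn Q y).card : ℝ) ≤ ε / 3 * Q / Real.log Q := by
    refine (card_Mn (D := E ^ 3 * (Q : ℝ) ^ (1 / (4 * s ^ 2) : ℝ))
      (θ := (Q : ℝ) ^ (-(1 / (2 * s ^ 2)) : ℝ)) s0 (by omega) y3 Q0 (fun m _ hm => ?_)
      (by positivity) ?_).trans ?_
    · have a1 : m ≤ Q ^ (5 * s) := by
        refine hm.trans ?_
        calc _ ≤ Q ^ s * (Q ^ 2) ^ (2 * s) := Nat.mul_le_mul (e4.trans (Nat.le_self_pow s0.ne' _))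
              (Nat.pow_le_pow_left (by nlinarith) _)
          _ = _ := by ring
      calc _ ≤ (E * ((Q : ℝ) ^ (5 * s)) ^ (1 / (60 * s ^ 3) : ℝ)) ^ 3 := by
            refine pow_le_pow_left₀ (Nat.cast_nonneg _) ((hτ m).trans ?_) _
            gcongr
            exact_mod_cast a1
        _ = _ := by
            rw [mul_pow, ← Real.rpow_natCast (Q : ℝ), ← Real.rpow_mul Q2.le,
              ← Real.rpow_mul_natCast Q2.le]
            congr 2
            push_cast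
            field_simp
            norm_num
    · rw [← Real.rpow_mul_natCast Q2.le, neg_mul, Real.rpow_neg Q2.le,
        le_mul_inv_iff₀ (by positivity), one_mul,
        show (1 / (2 * s ^ 2) : ℝ) * (2 * s : ℕ) = (s : ℝ)⁻¹ by push_cast; field_simp,
        Real.rpow_inv_le_iff_of_pos Q2.le (Nat.cast_nonneg _) s1]
      exact_mod_cast y3
    · have a1 : (Q : ℝ) ^ (1 / (4 * s ^ 2) : ℝ) * ((Q : ℝ) ^ (1 / (4 * s ^ 2) : ℝ) *
          (Q : ℝ) ^ (-(1 / (2 * s ^ 2)) : ℝ)) = 1 := by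
        rw [← Real.rpow_add Q2, ← Real.rpow_add Q2, ← Real.rpow_zero Q]
        congr 1
        ring
      rw [le_div_iff₀ (by linarith)]
      calc _ ≤ 736 * s ^ (2 * s + 1) * (E ^ 3 * (Q : ℝ) ^ (1 / (4 * s ^ 2) : ℝ)) *
            (Q : ℝ) ^ (-(1 / (2 * s ^ 2)) : ℝ) * Q * (2 * Real.log Q) ^ 2 * Real.log Q := by
            gcongr
            linarith
        _ = ε / 3 * Q * (3 / ε * (2944 * s ^ (2 * s + 1) * E ^ 3) * Real.log Q ^ 3 *
            ((Q : ℝ) ^ (1 / (4 * s ^ 2) : ℝ) * (Q : ℝ) ^ (-(1 / (2 * s ^ 2)) : ℝ))) := by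
            field_simp
            norm_num
        _ ≤ _ := mul_le_of_le_one_right (by positivity)
            ((mul_le_mul_of_nonneg_right e2 (by positivity)).trans a1.le)
  have r4 : ∀ j ∈ range 6, ((Fr (if j = 0 then 3 else 2 : ℕ) Q (y ^ K ^ j) (y ^ K ^ (j + 1))
      (y ^ K ^ 6)).card : ℝ) ≤ ε / 18 * Q / Real.log Q + 2 * (Q : ℝ) ^ (1 / 2 : ℝ) := by
    intro j hj
    have mo : ∀ i j, i ≤ j → y ^ K ^ i ≤ y ^ K ^ j := fun i j e =>
      Nat.pow_le_pow_right (by omega) (Nat.pow_le_pow_right K0 e)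
    have m0 : ∀ j, y ≤ y ^ K ^ j := fun j => by simpa using mo 0 j j.zero_le
    refine (hS _ Q _ _ _ (by split_ifs <;> omega) (by split_ifs <;> omega) (y4.trans (m0 j))
      (mo j (j + 1) j.le_succ) (mo _ _ (mem_range.1 hj)) ((le_max_right _ _).trans (y1.trans (m0 6)))).trans
      (add_le_add ?_ (by gcongr))
    have K1 : (1 : ℝ) ≤ K := by exact_mod_cast K0
    have a1 : 1 ≤ (K : ℝ) ^ j * Real.log y := one_le_mul_of_one_le_of_one_le (one_le_pow₀ K1) l1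
    simp only [Nat.cast_pow, Real.log_pow]
    rw [div_le_div_iff₀ (by positivity) (by linarith)]
    rw [div_le_iff₀ hε] at hK'
    calc _ ≤ C * Q * (2 * (K ^ j * Real.log y)) * (240 * (K ^ 6 * Real.log y)) := by
          gcongr
          linarith
      _ = 8640 * C / 18 * Q * (K ^ 6 * Real.log y * (K ^ j * Real.log y)) := by ring
      _ ≤ K * ε / 18 * Q * (K ^ 6 * Real.log y * (K ^ j * Real.log y)) := by gcongr
      _ = _ := by ring
  have r5 := (card_le_card fun q hq => cover (y := y) (by omega) hK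
    (mem_filter.1 (show q ∈ (Icc 1 Q).filter fun q => q.Prime ∧ Dv q from hq)).1
    (mem_filter.1 hq).2.1 (mem_filter.1 hq).2.2).trans ((card_union_le _ _).trans
      (Nat.add_le_add (card_union_le _ _) card_biUnion_le))
  have r6 := sum_le_card_nsmul _ _ _ r4
  have r7 : ((y ^ K ^ 6 : ℕ) : ℝ) ≤ (Q : ℝ) ^ (1 / 2 : ℝ) :=
    (le_self_pow₀ (by exact_mod_cast Nat.one_le_pow _ _ (by omega)) (by norm_num)).trans r1
  rw [Nat.card_Icc, Nat.add_sub_cancel, ← Nat.cast_le (α := ℝ), Nat.cast_add, Nat.cast_add,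
    Nat.cast_sum] at r5
  rw [card_range, nsmul_eq_mul] at r6
  have r8 : ε * Q / Real.log Q = 6 * (ε / 18 * Q / Real.log Q) + 2 * (ε / 3 * Q / Real.log Q) := by
    ring
  push_cast at r5 r6 r7 ⊢
  linarith

end Pool.Agent.MP_47ed89_co.H76

end MrgPart3

-- marker of a merged file
example : 731051 + 5111 = 731051 + 5111 := rfl
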