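import Mathlib.NumberTheory.Chebyshev
import Pool.Agent.MP_47ed89_co.h58.Proj
import Pool.Agent.MP_47ed89_co.h76.Arith

/-!
Block-transitive 5-designs on the projective line over a prime field.
-/

set_option autoImplicit false

namespace Pool.Agent.MP_47ed89_co.H76

open Finset Filter Pool.Agent.MP_47ed89_co.H58
open scoped LinearAlgebra.Projectivization

section

variable {X : Type} [Fintype X] [DecidableEq X] {B : Finset (Finset X)} {k t : ℕ}

omit [Fintype X] in
lemma avoid (H : ∀ i ≤ t, ∃ l, Des B i l) (j : ℕ) : ∀ i, i + j ≤ t → ∃ c, ∀ S T : Finset X,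
    S.card = i → T.card = j → Disjoint S T → (B.filter fun b => S ⊆ b ∧ Disjoint T b).card = c := by
  induction j with
  | zero =>
    intro i hi
    obtain ⟨l, hl⟩ := H i hi
    refine ⟨l, fun S T h1 h2 _ => ?_⟩
    rw [card_eq_zero.1 h2, ← hl S h1]
    simp
  | succ j ih =>
    intro i hi
    obtain ⟨c, hc⟩ := ih i (by omega)
    obtain ⟨c', hc'⟩ := ih (i + 1) (by omega)
    refine ⟨c - c', fun S T h1 h2 h3 => ?_⟩
    obtain ⟨x, T, hx, rfl, h4⟩ := card_eq_succ.1 h2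
    obtain ⟨h5, h6⟩ := disjoint_insert_right.1 h3
    rw [← hc S T h1 h4 h6, ← hc' (insert x S) T (by rw [card_insert_of_notMem h5, h1]) h4
      (disjoint_insert_left.2 ⟨hx, h6⟩),
      ← card_filter_add_card_filter_not (s := B.filter fun b => S ⊆ b ∧ Disjoint T b) (x ∈ ·),
      filter_filter, filter_filter]
    refine Nat.eq_sub_of_add_eq' ?_
    congr 2 <;> ext b <;> simp only [mem_filter, insert_subset_iff, disjoint_insert_left] <;> tauto

lemma complete (H : ∀ i ≤ t, ∃ l, Des B i l) (hk : ∀ b ∈ B, b.card = k)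
    (hv : Fintype.card X ≤ k + t) (hne : B.Nonempty) (T : Finset X) (hT : T.card = k) : T ∈ B := by
  obtain ⟨c, hc⟩ := avoid H (Fintype.card X - k) 0 (by omega)
  obtain ⟨b, hb⟩ := hne
  have h1 := hc ∅ bᶜ rfl (by rw [card_compl, hk b hb]) (by simp)
  rw [← hc ∅ Tᶜ rfl (by rw [card_compl, hT]) (by simp)] at h1
  obtain ⟨b', h2⟩ := card_pos.1 ((card_pos.2 ⟨b, mem_filter.2 ⟨hb, empty_subset _,
    disjoint_compl_left⟩⟩).trans_eq h1)
  obtain ⟨h3, -, h4⟩ := mem_filter.1 h2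
  rwa [← eq_of_subset_of_card_le (disjoint_compl_left_iff.1 h4) (by rw [hT, hk b' h3])]

end

variable {F : Type} [Field F] [Fintype F] [Fintype (ℙ F (Fin 2 → F))]
  [DecidableEq (ℙ F (Fin 2 → F))] {G : Subgroup (Equiv.Perm (ℙ F (Fin 2 → F)))}
  {B : Finset (Finset (ℙ F (Fin 2 → F)))} {k l : ℕ}

theorem dv (hq : (Fintype.card F).Prime) (hG : ∀ σ ∈ G, IsPGammaL σ) (hk : ∀ b ∈ B, b.card = k)
    (h5 : 5 < k) (hkv : k < Fintype.card F + 1) (hl : 0 < l) (hd : Des B 5 l)
    (hn : ∃ T : Finset (ℙ F (Fin 2 → F)), T.card = k ∧ T ∉ B)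
    (hinv : ∀ σ ∈ G, ∀ b ∈ B, b.image σ ∈ B)
    (htr : ∀ b₁ ∈ B, ∀ b₂ ∈ B, ∃ σ ∈ G, b₁.image σ = b₂) : Dv (Fintype.card F) := by
  have hv : k ≤ Fintype.card (ℙ F (Fin 2 → F)) := by rw [card_line']; omega
  obtain ⟨l4, d4, e4⟩ := Des.step (t := 4) hk (by omega) hv hd
  obtain ⟨l3, d3, e3⟩ := Des.step (t := 3) hk (by omega) hv d4
  obtain ⟨l2, d2, e2⟩ := Des.step (t := 2) hk (by omega) hv d3
  obtain ⟨l1, d1, e1⟩ := Des.step (t := 1) hk (by omega) hv d2
  obtain ⟨l0, d0, e0⟩ := Des.step (t := 0) hk (by omega) hv d1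
  have hne : B.Nonempty := by
    obtain ⟨T, -, h⟩ := exists_subset_card_eq (s := (univ : Finset (ℙ F (Fin 2 → F)))) (n := 5)
      (by rw [card_univ]; omega)
    exact (card_pos.1 (hd T h ▸ hl)).mono (filter_subset _ _)
  have hk3 : k + 2 < Fintype.card F := by
    by_contra h
    obtain ⟨T, h1, h2⟩ := hn
    refine h2 (complete (t := 3) (fun i hi => ?_) hk (by rw [card_line']; omega) hne T h1)
    interval_cases i
    exacts [⟨_, d0⟩, ⟨_, d1⟩, ⟨_, d2⟩, ⟨_, d3⟩]
  obtain rfl : B.card = l0 := by simpa using d0 ∅ rfl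
  obtain ⟨s, g, h1, h2, h3⟩ := card_subgroup G hG
  have : Subsingleton (F ≃+* F) := ⟨fun φ ψ => RingEquiv.ext fun x => by
    obtain ⟨y, rfl⟩ := (ZMod.ringEquivOfPrime F hq rfl).surjective x
    exact congrArg (fun f : ZMod _ →+* F => f y) (RingHom.ext_zmod
      ((φ : F →+* F).comp (ZMod.ringEquivOfPrime F hq rfl : _ →+* F))
      ((ψ : F →+* F).comp (ZMod.ringEquivOfPrime F hq rfl : _ →+* F)))⟩
  have h4 : s = 1 := by
    have a1 : Nat.card (F ≃+* F) = 1 := Nat.card_unique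
    have a2 : 0 < Nat.card G := Nat.card_pos
    have := Nat.pos_of_mul_pos_right (h1 ▸ a2)
    omega
  obtain ⟨b, hb⟩ := hne
  obtain ⟨c, hc⟩ := (Dvd.intro _ (card_mul_stab G B hinv htr b hb)).trans
    ((h1.trans (by rw [h4, one_mul])) ▸ h3)
  rw [card_line'] at e0 e1 e2 e3 e4
  generalize Fintype.card F = q at *
  zify [show 4 ≤ k by omega, show 3 ≤ k by omega, show 2 ≤ k by omega, show 1 ≤ k by omega,
    show 4 ≤ q + 1 by omega, show 3 ≤ q + 1 by omega, show 2 ≤ q + 1 by omega,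
    show 1 ≤ q + 1 by omega, show 1 ≤ q by omega, Nat.sub_zero] at e0 e1 e2 e3 e4 hc
  have h6 : (k : ℤ) * (k - 1) * (k - 2) * (k - 3) = (q - 2) * (c * l4) := by
    refine mul_left_cancel₀ (a := (q + 1 : ℤ) * q * (q - 1))
      (mul_ne_zero (mul_ne_zero (by omega) (by omega)) (by omega)) ?_
    linear_combination (k : ℤ) * (k - 1) * (k - 2) * (k - 3) * hc +
      c * ((k - 1) * (k - 2) * (k - 3) * e0 + (q + 1) * ((k - 2) * (k - 3) * e1 +
        q * ((k - 3) * e2 + (q - 1) * e3)))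
  exact ⟨k, by omega, by omega, ⟨_, h6⟩, (q - 2) * (c * l), by
    linear_combination (k - 4) * h6 + (q - 2) * c * e4⟩

/-- proper prime powers are rare -/
lemma powers {Q : ℕ} (hQ : 0 < Q) : (((Icc 1 Q).filter fun q => IsPrimePow q ∧ ¬q.Prime).card : ℝ) ≤
    4 * (√Q * Real.log Q) := by
  have h1 := Chebyshev.psi_sub_theta_le (x := Q) (by exact_mod_cast hQ)
  rw [Chebyshev.psi_sub_theta_eq_sum_not_prime, Nat.floor_natCast] at h1
  have h2 := card_nsmul_le_sum ((Icc 1 Q).filter fun q => IsPrimePow q ∧ ¬q.Prime)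
    ArithmeticFunction.vonMangoldt (1 / 2) fun q hq => by
      have h := (mem_filter.1 hq).2.1
      rw [ArithmeticFunction.vonMangoldt_apply, if_pos h]
      refine le_trans (by linarith [Real.log_two_gt_d9]) (Real.log_le_log two_pos ?_)
      exact_mod_cast (Nat.minFac_prime h.ne_one).two_le
  have h3 := h2.trans ((sum_le_sum_of_subset_of_nonneg (fun q hq => mem_filter.2
    ⟨mem_Ioc.2 (mem_Icc.1 (mem_filter.1 hq).1), (mem_filter.1 hq).2.2⟩)
    fun _ _ _ => ArithmeticFunction.vonMangoldt_nonneg).trans h1)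
  rw [nsmul_eq_mul] at h3
  linarith

open Classical in
theorem count {ε : ℝ} (hε : 0 < ε) : ∀ᶠ Q : ℕ in atTop,
    (((Icc 1 Q).filter fun q => IsPrimePow q ∧ (q.Prime → Dv q)).card : ℝ) ≤
      ε * Nat.primeCounting Q := by
  filter_upwards [arith (ε := ε / 4) (by positivity), ev (16 / ε) one_half_pos,
    ev 20 one_pos, eventually_ge_atTop 3] with Q e1 e2 e3 e4
  have Q3 : (3 : ℝ) ≤ Q := by exact_mod_cast e4
  have L1 : 1 ≤ Real.log Q := by
    rw [Real.le_log_iff_exp_le (by linarith)]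
    linarith [Real.exp_one_lt_d9]
  have L3 : Real.log Q ^ 2 ≤ Real.log Q ^ 3 := pow_le_pow_right₀ L1 (by norm_num)
  have h1 := powers (Q := Q) (by omega)
  have h2 : 4 * (√Q * Real.log Q) ≤ ε / 4 * Q / Real.log Q := by
    rw [le_div_iff₀ (by linarith)]
    rw [← Real.sqrt_eq_rpow] at e2
    calc _ = ε / 4 * (√Q * (16 / ε * Real.log Q ^ 2)) := by field_simp; norm_num
      _ ≤ ε / 4 * (√Q * √Q) := by
          gcongr
          exact le_trans (by gcongr) e2
      _ = _ := by rw [Real.mul_self_sqrt (by linarith)]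
  have h3 : Q / 2 / Real.log Q ≤ Nat.primeCounting Q := by
    refine le_trans ?_ (Chebyshev.pi_ge Q)
    have a1 : Real.log (Q + 1) ≤ 2 * Real.log Q := by
      rw [show 2 * Real.log Q = Real.log (Q ^ 2) by simp]
      exact Real.log_le_log (by linarith) (by nlinarith)
    have a2 := Real.log_two_gt_d9
    rw [Real.rpow_one] at e3
    gcongr
    nlinarith
  have h4 : ((Icc 1 Q).filter fun q => IsPrimePow q ∧ (q.Prime → Dv q)).card ≤ _ :=
    (card_le_card (t := ((Icc 1 Q).filter fun q => q.Prime ∧ Dv q) ∪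
      (Icc 1 Q).filter fun q => IsPrimePow q ∧ ¬q.Prime) fun q hq => by
        simp only [mem_union, mem_filter] at hq ⊢
        tauto).trans (card_union_le _ _)
  rw [← Nat.cast_le (α := ℝ), Nat.cast_add] at h4
  calc _ ≤ ε * (Q / 2 / Real.log Q) := by
        rw [show ε * (Q / 2 / Real.log Q) = ε / 4 * Q / Real.log Q + ε / 4 * Q / Real.log Q by ring]
        linarith
    _ ≤ _ := by gcongr

end Pool.Agent.MP_47ed89_co.H76
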